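import Pool.Agent.V7H46.SL3.NotIn
import Pool.Agent.V7H46.SL3.Sanity

/-!
# The center of the `SL_3`-skein algebra is larger than the threaded and puncture skeins

The question asks whether, for every `d ≥ 3` and every surface `S` of finite type, the center of the
skein algebra `𝒮^q_{SL_d}(S)`, with `q^(2/d)` a primitive `n`-th root of unity, is the subalgebra
generated by the puncture skeins `[P_i]` and the skeins `L^[P̂_d^(n,i)]` threaded along framed knots.

The answer is no: for `d = 3`, `n = 3`, every `z = q^(1/3)` such that `z²` is a primitive third root of
unity, and `S` the sphere with three punctures, the knot `eight` (weight `1`, an immersed figure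
eight around two of the punctures) is central, but it is not in this subalgebra.

The definitions are in `Pool.Agent.V7H46.SL3.Defs`. Webs in `S × [0,1]` are drawn on the vertical
plane, together with the two vertical poles `p_0 × [0,1]`, `p_1 × [0,1]` that are removed from
`ℝ² × [0,1]`; the product is the stacking of drawings. `SkeinAlgebra z` is the algebra of formal
complex combinations of all drawings modulo the local isotopy moves for framed webs (`Move`) and the
skein relations of Cautis, Kamnitzer and Morrison for `SL_3` (`Skein`).

* Central: for `z⁶ = 1` a line of weight `1` and any line of the web may be exchanged at the cost of a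
  power of `z²` (`Check`, `Central`), and in `eight` these powers cancel.
* Not in the subalgebra: matrices in `SL_3`, one for each pole, give a homomorphism from the skein
  algebra to `ℂ` (`Functor`, `Check2`, `Hom`) if they are diagonal. For the two matrices
  `diag(1, t, t²)`, `t = z⁴`, all puncture skeins become zero, and the threaded skeins only see the
  third powers of the matrices. So multiplying the first matrix by the scalar `t` changes neither
  kind of generator, but it changes the value of `eight` from `3` to `3 t`.
-/

set_option autoImplicit false

namespace Pool.Agent.Results.MP_05e0c2_gt.CenterLargerH46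

open Pool.Agent.V7H46.SL3

/-- The question for `d = 3` and the sphere with three punctures, with `z = q^(1/3)`: if `z²` is a
primitive `n`-th root of unity, then the center of the skein algebra is the subalgebra generated by
the puncture skeins and the threaded skeins. -/
def CenterIsGenerated (z : ℂ) (n : ℕ) : Prop :=
  IsPrimitiveRoot (z ^ 2) n →
    Subalgebra.center ℂ (SkeinAlgebra z) = Algebra.adjoin ℂ (punctureSkeins z ∪ threadedSkeins z n)

/-- For `n = 3` the knot `eight` is central and not in the subalgebra generated by the puncture skeins
and the threaded skeins. So the statement of the question is false for each `z` such that `z²` is a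
primitive third root of unity, and there are such `z`. -/
theorem result :
    (∃ z : ℂ, IsPrimitiveRoot (z ^ 2) 3) ∧
    ∀ z : ℂ, IsPrimitiveRoot (z ^ 2) 3 →
      IsKnot eight ∧
      cls z eight ∈ Subalgebra.center ℂ (SkeinAlgebra z) ∧
      cls z eight ∉ Algebra.adjoin ℂ (punctureSkeins z ∪ threadedSkeins z 3) ∧
      ¬ CenterIsGenerated z 3 := by
  have key : ∀ z : ℂ, IsPrimitiveRoot (z ^ 2) 3 →
      cls z eight ∈ Subalgebra.center ℂ (SkeinAlgebra z) ∧
      cls z eight ∉ Algebra.adjoin ℂ (punctureSkeins z ∪ threadedSkeins z 3) := by
    intro z h
    have h1 : z ^ 6 = 1 := by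
      have := h.pow_eq_one
      rwa [← pow_mul] at this
    have h2 : z ^ 4 ≠ 1 := by
      have := h.pow_ne_one_of_pos_of_lt (l := 2) (by norm_num) (by norm_num)
      rwa [← pow_mul] at this
    exact ⟨eight_central h1, eight_not_mem z h1 h2⟩
  refine ⟨?_, fun z h => ⟨eight_isKnot, (key z h).1, (key z h).2, fun hc => ?_⟩⟩
  · refine ⟨Complex.exp (2 * Real.pi * Complex.I / 3) ^ 2, ?_⟩
    have h := Complex.isPrimitiveRoot_exp 3 (by norm_num)
    rw [← pow_mul]
    have h4 : (Complex.exp (2 * Real.pi * Complex.I / 3)) ^ (2 * 2) =
        Complex.exp (2 * Real.pi * Complex.I / 3) := by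
      have h3 := h.pow_eq_one
      push_cast at h3
      calc (Complex.exp (2 * Real.pi * Complex.I / 3)) ^ (2 * 2) =
          (Complex.exp (2 * Real.pi * Complex.I / 3)) ^ 3 *
            Complex.exp (2 * Real.pi * Complex.I / 3) := by ring
        _ = _ := by rw [h3, one_mul]
    rw [h4]
    exact_mod_cast h
  · obtain ⟨hm, hn⟩ := key z h
    rw [hc h] at hm
    exact hn hm

end Pool.Agent.Results.MP_05e0c2_gt.CenterLargerH46
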